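import Pool.Agent.helper36.PP.SpecE

set_option autoImplicit false

open Complex Metric Set Filter Topology MeasureTheory MPS MQ

noncomputable section

namespace PPS

theorem FIX_root (n : ℕ) (a : ℝ) (hn : 2 ≤ n) (ha : 0 < a) (f : Polynomial ℂ) (hf : Bd n a f) :
    ∃ z : ℂ, f.derivative.eval z = 1 ∧ ‖z‖ ≤ (n * a + 1) * a + 1 := by
  obtain ⟨hdeg, hc, hlead⟩ := hf
  obtain ⟨p, hp⟩ : ∃ p, p = f.derivative - Polynomial.C 1 := ⟨_, rfl⟩
  have hfl : f.leadingCoeff ≠ 0 := by
    intro h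
    rw [h, norm_zero, mul_zero] at hlead
    linarith
  have hfd : f.derivative.natDegree = n - 1 := by
    refine Polynomial.natDegree_eq_of_le_of_coeff_ne_zero ?_ ?_
    · rw [← hdeg]; exact Polynomial.natDegree_derivative_le f
    · have h1 : n - 1 + 1 = n := by omega
      rw [Polynomial.coeff_derivative, h1]
      refine mul_ne_zero ?_ ?_
      · rw [Polynomial.leadingCoeff, hdeg] at hfl
        exact hfl
      · exact Nat.cast_add_one_ne_zero _
  have hpd : p.natDegree = n - 1 := by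
    rw [hp, Polynomial.natDegree_sub_C, hfd]
  have hcoef : ∀ i, i ≠ 0 → p.coeff i = f.coeff (i + 1) * (i + 1) := by
    intro i hi
    rw [hp, Polynomial.coeff_sub, Polynomial.coeff_C, if_neg hi, sub_zero,
      Polynomial.coeff_derivative]
  have hl : p.leadingCoeff = f.leadingCoeff * n := by
    rw [Polynomial.leadingCoeff, hpd, hcoef _ (by omega), Polynomial.leadingCoeff, hdeg]
    have h1 : n - 1 + 1 = n := by omega
    rw [h1]
    have h2 : ((n - 1 : ℕ) : ℂ) + 1 = n := by
      rw [← h1]; push_cast; simp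
    rw [h2]
  have hl1 : 1 ≤ a * ‖p.leadingCoeff‖ := by
    rw [hl, norm_mul, Complex.norm_natCast]
    have h1 : (1 : ℝ) ≤ n := by exact_mod_cast (by omega : 1 ≤ n)
    have h2 : 0 ≤ ‖f.leadingCoeff‖ := norm_nonneg _
    nlinarith [mul_nonneg ha.le h2]
  have hlpos : 0 < ‖p.leadingCoeff‖ := by
    by_contra h
    have h1 : ‖p.leadingCoeff‖ = 0 := le_antisymm (not_lt.1 h) (norm_nonneg _)
    rw [h1, mul_zero] at hl1
    linarith
  have hp0 : p ≠ 0 := by
    rintro rfl
    simp at hlpos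
  obtain ⟨z, hz⟩ := IsAlgClosed.exists_root p (by
    rw [Polynomial.degree_eq_natDegree hp0, hpd]
    exact_mod_cast (by omega : n - 1 ≠ 0))
  refine ⟨z, ?_, ?_⟩
  · rw [Polynomial.IsRoot.def, hp, Polynomial.eval_sub, Polynomial.eval_C, sub_eq_zero] at hz
    exact hz
  · have h1 := Polynomial.IsRoot.norm_lt_cauchyBound hp0 hz
    have hM : (0 : ℝ) ≤ n * a + 1 := by positivity
    have hsup : (Finset.range p.natDegree).sup (‖p.coeff ·‖₊) ≤ Real.toNNReal (n * a + 1) := by
      refine Finset.sup_le fun i hi => ?_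
      rw [Finset.mem_range, hpd] at hi
      rw [← NNReal.coe_le_coe, Real.coe_toNNReal _ hM, coe_nnnorm]
      have hi1 : ((i : ℝ) + 1) ≤ n := by exact_mod_cast (by omega : i + 1 ≤ n)
      have h3 : ‖f.derivative.coeff i‖ ≤ n * a := by
        rw [Polynomial.coeff_derivative, norm_mul]
        have h4 : ‖((i : ℂ) + 1)‖ = (i : ℝ) + 1 := by
          rw [← Nat.cast_succ, Complex.norm_natCast]; push_cast; ring
        rw [h4]
        nlinarith [hc (i + 1), norm_nonneg (f.coeff (i + 1))]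
      rw [hp, Polynomial.coeff_sub, Polynomial.coeff_C]
      refine (norm_sub_le _ _).trans ?_
      have h5 : ‖(if i = 0 then (1 : ℂ) else 0)‖ ≤ 1 := by
        split_ifs <;> simp
      linarith
    unfold Polynomial.cauchyBound at h1
    have h2 : ((‖z‖₊ : NNReal) : ℝ) < (((Finset.range p.natDegree).sup (‖p.coeff ·‖₊) /
        ‖p.leadingCoeff‖₊ + 1 : NNReal) : ℝ) := NNReal.coe_lt_coe.2 h1
    rw [coe_nnnorm, NNReal.coe_add, NNReal.coe_div, coe_nnnorm, NNReal.coe_one] at h2
    have h3 : (((Finset.range p.natDegree).sup (‖p.coeff ·‖₊) : NNReal) : ℝ) ≤ n * a + 1 := by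
      have := NNReal.coe_le_coe.2 hsup
      rwa [Real.coe_toNNReal _ hM] at this
    have h4 : (((Finset.range p.natDegree).sup (‖p.coeff ·‖₊) : NNReal) : ℝ) / ‖p.leadingCoeff‖ ≤
        (n * a + 1) * a := by
      rw [div_le_iff₀ hlpos]
      calc _ ≤ (n * a + 1) * 1 := by rw [mul_one]; exact h3
        _ ≤ (n * a + 1) * (a * ‖p.leadingCoeff‖) := mul_le_mul_of_nonneg_left hl1 hM
        _ = _ := by ring
    linarith

theorem FIX : FIX_stmt := by
  intro n a hn ha
  obtain ⟨A, hA⟩ : ∃ A : ℝ, A = (n * a + 1) * a + 1 := ⟨_, rfl⟩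
  have hA0 : 0 < A := by rw [hA]; positivity
  refine ⟨A + ∑ i ∈ Finset.range (n + 1), a * A ^ i, by positivity, fun f hf => ?_⟩
  obtain ⟨z, hz, hzn⟩ := FIX_root n a hn ha f hf
  rw [← hA] at hzn
  refine ⟨z - f.eval z, z, ?_, ?_, ?_⟩
  · refine (norm_sub_le _ _).trans (add_le_add hzn ?_)
    rw [Polynomial.eval_eq_sum_range, hf.1]
    refine (norm_sum_le _ _).trans (Finset.sum_le_sum fun i _ => ?_)
    rw [norm_mul, norm_pow]
    exact mul_le_mul (hf.2.1 i) (pow_le_pow_left₀ (norm_nonneg _) hzn i) (by positivity) ha.le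
  · refine ⟨Nat.one_pos, ?_⟩
    rw [Function.minimalPeriod_eq_one_iff_isFixedPt]
    unfold Function.IsFixedPt
    simp
  · unfold mlt
    rw [Function.iterate_one, Polynomial.deriv]
    simp [hz]

end PPS
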