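import Pool.Agent.helper36.PP.SpecM

set_option autoImplicit false

open Complex Metric Set Filter Topology MeasureTheory MPS MQ Pool.Agent.helper98.ILF

noncomputable section

namespace PPS

theorem LC3 : LC3_stmt := by
  intro F a p hF hFp hlt hnc ha hap hdap heq
  by_contra hna
  have hma : analyticOrderAt a p ≠ ⊤ := by
    rw [Ne, analyticOrderAt_eq_top]
    exact hna
  obtain ⟨m, hm⟩ := ENat.ne_top_iff_exists.1 hma
  obtain ⟨h, hh, hhp, hah⟩ := (ha.analyticOrderAt_eq_natCast (n := m)).1 hm.symm
  have hm2 : 2 ≤ m := by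
    by_contra hlt2
    have hm01 : m = 0 ∨ m = 1 := by omega
    rcases hm01 with h0 | h1
    · rw [h0] at hah
      have := hah.self_of_nhds
      rw [hap] at this
      simp only [pow_zero, one_smul] at this
      exact hhp this.symm
    · rw [h1] at hah
      have h2 : deriv a p = deriv (fun z => (z - p) ^ 1 • h z) p := Filter.EventuallyEq.deriv_eq hah
      have h3 : HasDerivAt (fun z => (z - p) ^ 1 • h z) (h p) p := by
        have h4 := ((hasDerivAt_id p).sub_const p).mul hh.differentiableAt.hasDerivAt
        simp only [id_eq, sub_self, zero_mul, add_zero, one_mul] at h4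
        refine h4.congr_of_eventuallyEq (Eventually.of_forall fun z => ?_)
        simp
      rw [h3.deriv, hdap] at h2
      exact hhp h2.symm
  have hFa : AnalyticAt ℂ (fun z => F z - F p) p := hF.sub analyticAt_const
  have hD : analyticOrderAt (fun z => F z - F p) p ≠ ⊤ := by
    rw [Ne, analyticOrderAt_eq_top]
    intro hc
    refine hnc ?_
    filter_upwards [hc] with z hz
    rw [hFp] at hz
    exact sub_eq_zero.1 hz
  have hder : analyticOrderAt (deriv F) p + 1 = analyticOrderAt (fun z => F z - F p) p :=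
    hF.analyticOrderAt_deriv_add_one
  have he : analyticOrderAt (deriv F) p ≠ ⊤ := by
    intro hc
    rw [hc] at hder
    exact hD hder.symm
  obtain ⟨e, he'⟩ := ENat.ne_top_iff_exists.1 he
  have haF : AnalyticAt ℂ a (F p) := by rw [hFp]; exact ha
  have hcomp : analyticOrderAt (a ∘ F) p = analyticOrderAt a (F p) *
      analyticOrderAt (fun z => F z - F p) p := haF.analyticOrderAt_comp hF
  have hmul : analyticOrderAt (deriv F * a) p = analyticOrderAt (deriv F) p + analyticOrderAt a p :=
    analyticOrderAt_mul hF.deriv ha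
  have hsame : analyticOrderAt (deriv F * a) p = analyticOrderAt (a ∘ F) p :=
    analyticOrderAt_congr heq
  rw [hmul, hcomp, ← hder, hFp, ← he', ← hm] at hsame
  have hnat : e + m = m * (e + 1) := by exact_mod_cast hsame
  have he0 : e = 0 := by
    rcases Nat.eq_zero_or_pos e with h0 | h0
    · exact h0
    · exfalso
      nlinarith
  have hlam : deriv F p ≠ 0 := by
    rw [he0] at he'
    exact (hF.deriv.analyticOrderAt_eq_zero).1 he'.symm
  -- factorisation of `F`
  have hg1 : Tendsto (fun z => (F z - F p) / (z - p)) (𝓝[≠] p) (𝓝 (deriv F p)) := by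
    have := hF.differentiableAt.hasDerivAt.tendsto_slope
    refine this.congr fun z => ?_
    rw [slope_def_field]
  have hhF : Tendsto (fun z => h (F z)) (𝓝[≠] p) (𝓝 (h p)) := by
    have h1 : ContinuousAt (fun z => h (F z)) p := by
      refine ContinuousAt.comp (g := h) ?_ hF.continuousAt
      rw [hFp]
      exact hh.continuousAt
    have h2 := h1.tendsto
    rw [show h (F p) = h p by rw [hFp]] at h2
    exact h2.mono_left nhdsWithin_le_nhds
  have hl1 : Tendsto (fun z => deriv F z * h z) (𝓝[≠] p) (𝓝 (deriv F p * h p)) :=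
    ((hF.deriv.continuousAt.mul hh.continuousAt).tendsto).mono_left nhdsWithin_le_nhds
  have hl2 : Tendsto (fun z => ((F z - F p) / (z - p)) ^ m * h (F z)) (𝓝[≠] p)
      (𝓝 ((deriv F p) ^ m * h p)) := (hg1.pow m).mul hhF
  have hFt : Tendsto F (𝓝 p) (𝓝 p) := by
    have := hF.continuousAt.tendsto
    rwa [hFp] at this
  have hev : (fun z => deriv F z * h z) =ᶠ[𝓝[≠] p]
      fun z => ((F z - F p) / (z - p)) ^ m * h (F z) := by
    have e1 := heq.filter_mono (nhdsWithin_le_nhds (s := {p}ᶜ))
    have e2 := hah.filter_mono (nhdsWithin_le_nhds (s := {p}ᶜ))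
    have e3 := (hFt.eventually hah).filter_mono (nhdsWithin_le_nhds (s := {p}ᶜ))
    filter_upwards [e1, e2, e3, self_mem_nhdsWithin] with z h1 h2 h3 h4
    have hz : z - p ≠ 0 := sub_ne_zero.2 h4
    rw [h2, h3] at h1
    simp only [smul_eq_mul] at h1
    rw [div_pow, hFp]
    field_simp
    linear_combination h1
  have hfin := tendsto_nhds_unique (hl1.congr' hev) hl2
  have h5 : deriv F p = (deriv F p) ^ m := mul_right_cancel₀ hhp hfin
  have h6 : ‖deriv F p‖ = ‖deriv F p‖ ^ m := by
    conv_lhs => rw [h5]
    rw [norm_pow]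
  have h7 : 0 < ‖deriv F p‖ := norm_pos_iff.2 hlam
  have h8 : ‖deriv F p‖ ^ m < ‖deriv F p‖ ^ 1 := pow_lt_pow_right_of_lt_one₀ h7 hlt (by omega)
  rw [pow_one] at h8
  linarith

end PPS
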