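import Pool.Agent.helper36.PP.SpecE

set_option autoImplicit false

open Complex Metric Set Filter Topology MeasureTheory MPS MQ

noncomputable section

namespace PPS

theorem THC (hTHB : THB_stmt) (hK1 : K1_stmt) : THC_stmt := by
  intro n a d₀ hn ha hd
  obtain ⟨ε₁, h1, H1⟩ := hTHB n a d₀ hn ha hd
  obtain ⟨ε₂, h2, H2⟩ := hK1 n a hn ha
  refine ⟨min ε₁ ε₂, lt_min h1 h2, ?_⟩
  intro k hk f b g hBd hcyc hρ hdd hex
  have hk0 : k ≠ 0 := hk.out
  by_cases hk1 : k = 1
  · subst hk1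
    exact (min_le_right _ _).trans (H2 f b g hBd hcyc hρ hex)
  · exact (min_le_left _ _).trans (H1 k f b g (by omega) hBd hcyc hρ hdd hex)

end PPS
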