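import Pool.Agent.helper36.PP.SpecL

set_option autoImplicit false

open Complex Metric Set Filter Topology MeasureTheory MPS MQ Pool.Agent.helper98.ILF

noncomputable section

namespace PPS

section
variable {k : ℕ} [NeZero k]

/-- the polynomial `QQ`. -/
def ERV_Q (f : Polynomial ℂ) (b g : ZMod k → ℂ) : Polynomial ℂ :=
  ∑ m ∈ Finset.range (f.natDegree - 1), Polynomial.C (lam f b g m) *
    ∑ l ∈ Finset.Ico (m + 1) f.natDegree,
      Polynomial.C (f.derivative.coeff l) * Polynomial.X ^ (l - 1 - m)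

theorem ERV_eval (f : Polynomial ℂ) (b g : ZMod k → ℂ) :
    QQ f b g = fun y => (ERV_Q f b g).eval y := by
  funext y
  unfold QQ ERV_Q
  simp only [Polynomial.eval_finsetSum, Polynomial.eval_mul, Polynomial.eval_C,
    Polynomial.eval_pow, Polynomial.eval_X]

theorem ERV_deg (f : Polynomial ℂ) (b g : ZMod k → ℂ) (hf : 2 ≤ f.natDegree) :
    (ERV_Q f b g).natDegree + 2 ≤ f.natDegree := by
  have h : (ERV_Q f b g).natDegree ≤ f.natDegree - 2 := by
    unfold ERV_Q
    refine Polynomial.natDegree_sum_le_of_forall_le _ _ fun m hm => ?_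
    refine (Polynomial.natDegree_C_mul_le _ _).trans ?_
    refine Polynomial.natDegree_sum_le_of_forall_le _ _ fun l hl => ?_
    refine (Polynomial.natDegree_C_mul_X_pow_le _ _).trans ?_
    rw [Finset.mem_Ico] at hl
    omega
  omega

end

theorem ERV (hRAN : RAN_stmt) (hERQ : ERQ_stmt) : ERV_stmt := by
  intro k _ f b g V hf hb hg hV
  obtain ⟨s, hs⟩ := hRAN f (ERV_Q f b g) V hf (ERV_deg f b g hf) hV
  refine ⟨s, ?_⟩
  have h1 := (hERQ f.natDegree k f b g hf rfl hb hg).1
  have h2 : ∀ᵐ z : ℂ, z ∉ (V : Set ℂ) :=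
    measure_eq_zero_iff_ae_notMem.1 (V.finite_toSet.measure_zero _)
  filter_upwards [h1, h2] with z hz hzV
  rw [hz, ERV_eval]
  exact hs z (fun h => hzV h)

end PPS
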