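import Pool.Agent.helper25.PP.Spec

set_option autoImplicit false

namespace PP

open Finset SimpleGraph CT

theorem PA2_aux (V : Type) [Fintype V] [DecidableEq V] (h : PA1_stmt)
    (hn : 100 ≤ Fintype.card V) : ∀ (k : ℕ) (H : Finset (Sym2 V)), H.card = k →
  10 * k ≤ Fintype.card V →
  Fintype.card V ^ k * N H ≤ 5 ^ k * cc fun _ : SimpleGraph V => True := by
  intro k
  induction k with
  | zero =>
    intro H hH _
    have hH0 : H = ∅ := Finset.card_eq_zero.mp hH
    subst hH0
    simp only [pow_zero, one_mul]
    apply le_of_eq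
    unfold N
    congr 1
    funext G
    simp
  | succ k ih =>
    intro H hH hk
    have hne : H.Nonempty := by
      rw [← Finset.card_pos]; omega
    obtain ⟨e, he⟩ := hne
    induction e using Sym2.ind with
    | _ x y =>
    have h1 := h V H x y he
    have hc : (H.erase s(x, y)).card = k := by
      rw [Finset.card_erase_of_mem he]; omega
    have h2 := ih (H.erase s(x, y)) hc (by omega)
    set n := Fintype.card V with hndef
    have h3 : 16 * n ≤ 5 * (4 * n - 40 - 2 * H.card) := by omega
    have h4 : n * N H ≤ 5 * N (H.erase s(x, y)) := by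
      have h5 : 16 * n * N H ≤ 5 * (4 * n - 40 - 2 * H.card) * N H := Nat.mul_le_mul_right _ h3
      have h6 : 5 * ((4 * n - 40 - 2 * H.card) * N H) ≤ 5 * (16 * N (H.erase s(x, y))) :=
        Nat.mul_le_mul_left _ h1
      nlinarith
    calc n ^ (k + 1) * N H = n ^ k * (n * N H) := by ring
      _ ≤ n ^ k * (5 * N (H.erase s(x, y))) := Nat.mul_le_mul_left _ h4
      _ = 5 * (n ^ k * N (H.erase s(x, y))) := by ring
      _ ≤ 5 * (5 ^ k * cc fun _ : SimpleGraph V => True) := Nat.mul_le_mul_left _ h2
      _ = 5 ^ (k + 1) * cc fun _ : SimpleGraph V => True := by ring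

theorem PA2 (h : PA1_stmt) : PA2_stmt := by
  intro V _ _ H hn hH
  exact PA2_aux V h hn H.card H rfl hH

end PP
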